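import Pool.Agent.H81.SG.EDat

/-!
# The kernel pass for `n = 4` with a longer range of exponents
-/

namespace H81.SG

open H81.L2 H46.SB

/-- the complete pass for one `k`, only `n = 4` is printed, exponents up to `W - 130` -/
def passW (B gs gp k W : ℕ) (l1 l2 L4 : List ℕ) : Bool :=
  initAK k l1 107 fun a => initBK k l2 1 fun b =>
    stepK B gs gp (List.replicate 253 0 ++ (a ++ b)) fun t1 => stepK B gs gp t1 fun t2 =>
      stepK B gs gp t2 fun t3 => stepK B gs gp t3 fun t4 =>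
          chkOut 2097152 (t4.drop (490 - W)) L4.reverse

/-- a certified row -/
def RowW (W n k Er : ℕ) (L : List ℕ) : Prop :=
  L.length = W + 1 ∧ ∀ i, i ≤ W → ((L.getD i 0 : ℕ) : ℝ) ≤ 2 ^ 72 / hh ^ n * Fk n k (p ^ ((i : ℤ) - 130)) ∧
    2 ^ 72 / hh ^ n * Fk n k (p ^ ((i : ℤ) - 130)) ≤ ((L.getD i 0 : ℕ) : ℝ) + Er

theorem row_ofW {W n k e : ℕ} (hW : W ≤ 490) {t L : List ℕ} {c100 X Z : ℝ} (hc100 : c100 = 2 ^ 100)
    (hX : X = (21 / 20 : ℝ) ^ 130) (hZZ : Z = 2 ^ 72) (ht : TOK k n 360 (42 ^ n / c100) t)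
    (hc : chkOut e (t.drop (490 - W)) L.reverse = true) (hL : L.length = W + 1)
    (he : (n : ℝ) * 52 ^ n * A k * X * Z ≤ e)
    (he2 : (42 : ℝ) ^ n / c100 * X * Z ≤ 7) : RowW W n k (2 * e + 8) L := by
  have hZ : 0 ≤ Z := by rw [hZZ]; positivity
  refine ⟨hL, fun i hi => ?_⟩
  obtain ⟨h1, h2⟩ := chkOut_spec hc
  rw [List.length_reverse, hL, List.length_drop] at h1
  have hi2 : W - i < L.reverse.length := by rw [List.length_reverse, hL]; omega
  have hi3 : W - i < (t.drop (490 - W)).length := by rw [List.length_drop]; omega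
  have h3 := h2 (W - i) hi2 hi3
  have h4 : L.reverse[W - i] = L.getD i 0 := by
    rw [List.getElem_reverse, List.getD_eq_getElem _ _ (by omega)]
    congr 1
    omega
  rw [List.getElem_drop, h4] at h3
  have hi4 : 490 - W + (W - i) < t.length := by omega
  obtain ⟨h5, h6⟩ := ht (490 - W + (W - i)) hi4
  have hexp : ((360 : ℕ) : ℤ) - ((490 - W + (W - i) : ℕ) : ℤ) = (i : ℤ) - 130 := by
    push_cast [Nat.cast_sub hi, Nat.cast_sub hW]
    ring
  rw [hexp] at h5 h6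
  set m : ℝ := p ^ ((i : ℤ) - 130) with hm
  have hm0 : 0 < m := zpow_pos p_pos _
  have htr := trapN' n k hm0
  rw [abs_le] at htr
  -- lower bound for `m`
  have hm1 : 1 / m ≤ X := by
    rw [hX, ← p_130, hm, one_div, ← zpow_neg, show -((i : ℤ) - 130) = 130 - (i : ℤ) by ring]
    exact zpow_le_zpow_right₀ (by unfold p; norm_num) (by omega)
  have hA : 0 ≤ A k := by unfold A; positivity
  have hn0 : (0 : ℝ) ≤ (n : ℝ) * 52 ^ n * A k :=
    mul_nonneg (mul_nonneg (Nat.cast_nonneg n) (pow_nonneg (by norm_num) n)) hA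
  have hE1 := row_aux hm1 hn0 hZ he
  have hn1 : (0 : ℝ) ≤ (42 : ℝ) ^ n / c100 := div_nonneg (pow_nonneg (by norm_num) n)
    (le_of_le_of_eq (pow_nonneg (by norm_num : (0 : ℝ) ≤ 2) 100) hc100.symm)
  have hE2 := row_aux hm1 hn1 hZ he2
  -- the division by `2^184`
  set x : ℕ := t[490 - W + (W - i)] with hx
  have hd1 : ((x / 2 ^ 184 : ℕ) : ℝ) * 2 ^ 184 ≤ x := by
    have := Nat.div_mul_le_self x (2 ^ 184)
    exact_mod_cast this
  have hd2 : (x : ℝ) ≤ ((x / 2 ^ 184 : ℕ) : ℝ) * 2 ^ 184 + 2 ^ 184 := by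
    have := Nat.lt_div_mul_add (a := x) (b := 2 ^ 184) (by positivity)
    have h7 : x ≤ x / 2 ^ 184 * 2 ^ 184 + 2 ^ 184 := this.le
    exact_mod_cast h7
  have hF0 : 0 ≤ Fk n k m := ((fam n).pos k m hm0).le
  have hh0 : 0 < hh := by have := hh_bounds.1; linarith
  have hd3 : ((x / 2 ^ 184 : ℕ) : ℝ) ≤ (L.getD i 0 : ℝ) + e := by
    have : x / 2 ^ 184 ≤ L.getD i 0 + e := by omega
    exact_mod_cast this
  have hd4 : L.getD i 0 = 0 ∨ x / 2 ^ 184 = L.getD i 0 + e := by omega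
  rw [← hZZ]
  have hF : Z / hh ^ n * Fk n k m = Z * (Fk n k m / hh ^ n) := by ring
  rw [hF]
  set F : ℝ := Fk n k m / hh ^ n with hFdef
  set T0 : ℝ := T n k m with hT0
  set D : ℝ := (n : ℝ) * 52 ^ n * A k / m with hD
  set e2 : ℝ := (42 : ℝ) ^ n / c100 / m with he2'
  have g1 : (x : ℝ) / 2 ^ 256 * Z = x / 2 ^ 184 := by
    rw [hZZ, div_mul_eq_mul_div, div_eq_div_iff (by positivity) (by positivity)]
    ring
  have g2 : (x : ℝ) / 2 ^ 184 ≤ (L.getD i 0 : ℝ) + e + 1 := by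
    rw [div_le_iff₀ (by positivity)]
    have : ((x / 2 ^ 184 : ℕ) : ℝ) * 2 ^ 184 ≤ ((L.getD i 0 : ℝ) + e) * 2 ^ 184 :=
      mul_le_mul_of_nonneg_right hd3 (by positivity)
    linarith
  constructor
  · -- lower
    rcases hd4 with h0 | h0
    · rw [h0, Nat.cast_zero]
      exact mul_nonneg hZ (div_nonneg hF0 (pow_nonneg hh0.le n))
    · have g3 : (L.getD i 0 : ℝ) + e ≤ (x : ℝ) / 2 ^ 184 := by
        rw [le_div_iff₀ (by positivity)]
        rw [h0] at hd1
        push_cast at hd1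
        exact hd1
      have k1 : T0 - D ≤ F := by linarith [htr.1]
      have k2 : Z * (T0 - D) ≤ Z * F := mul_le_mul_of_nonneg_left k1 hZ
      have k3 : (x : ℝ) / 2 ^ 256 * Z ≤ T0 * Z := mul_le_mul_of_nonneg_right h5 hZ
      rw [g1] at k3
      linarith
  · have k1 : F ≤ T0 + D := by linarith [htr.2]
    have k2 : Z * F ≤ Z * (T0 + D) := mul_le_mul_of_nonneg_left k1 hZ
    have k3 : T0 * Z ≤ ((x : ℝ) / 2 ^ 256 + e2) * Z :=
      mul_le_mul_of_nonneg_right h6 hZ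
    rw [add_mul, g1] at k3
    push_cast
    linarith

theorem passW_spec {B k W : ℕ} (hW : W ≤ 490) (hk : k ≤ 14) {g l1 l2 L4 : List ℕ} (hg : GOK g)
    (hE : EOK (l1 ++ l2)) (hl1 : l1.length = 108) (hl2 : l2.length = 338) (hgl : 699 ≤ g.length)
    (hL4 : L4.length = W + 1)
    (h : passW B (sumL g) (packL B g) k W l1 l2 L4 = true) :
    RowW W 4 k 4194312 L4 := by
  unfold passW at h
  rw [initAK_eq, initBK_eq] at h
  have h0 : TOK k 0 360 (1 / 2 ^ 100) (init0 k l1 l2) := init_ok (by omega) hl1 hE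
  have hlen0 : (init0 k l1 l2).length = 699 := by rw [init0_length, hl1, hl2]
  have h1 := stepK_spec _ h
  have s1 := step_ok hg h0 (by omega) (by omega : k ≤ 15) (by norm_num) (by positivity)
  have e1 : (stepL g (init0 k l1 l2)).length = 647 := by rw [stepL_length, hlen0]
  have h2 := stepK_spec _ h1
  have s2 := step_ok hg s1 (by rw [e1]; omega) (by omega : k ≤ 15) (by norm_num) (by positivity)
  have e2 : (stepL g (stepL g (init0 k l1 l2))).length = 595 := by rw [stepL_length, e1]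
  have h3 := stepK_spec _ h2
  have s3 := step_ok hg s2 (by rw [e2]; omega) (by omega : k ≤ 15) (by norm_num) (by positivity)
  have e3 : (stepL g (stepL g (stepL g (init0 k l1 l2)))).length = 543 := by rw [stepL_length, e2]
  have h4 := stepK_spec _ h3
  have s4 := step_ok hg s3 (by rw [e3]; omega) (by omega : k ≤ 15) (by norm_num) (by positivity)
  have mono : ∀ {n : ℕ} {t : List ℕ} {ε ε' : ℝ}, TOK k n 360 ε t → ε ≤ ε' → TOK k n 360 ε' t := by
    intro n t ε ε' ht hε i hi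
    obtain ⟨a, b⟩ := ht i hi
    refine ⟨a, b.trans ?_⟩
    have : 0 < p ^ (((360 : ℕ) : ℤ) - i) := zpow_pos p_pos _
    gcongr
  have hA := A_le hk
  have hA0 : 0 ≤ A k := by unfold A; positivity
  refine row_ofW hW (e := 2097152) rfl rfl rfl (mono s4 (by norm_num)) h4 hL4 ?_ (by norm_num)
  calc ((4 : ℕ) : ℝ) * 52 ^ 4 * A k * (21 / 20) ^ 130 * 2 ^ 72 ≤
      ((4 : ℕ) : ℝ) * 52 ^ 4 * (1307674368000 * (3 / 2) ^ 15 / 2 ^ 134) * (21 / 20) ^ 130 * 2 ^ 72 := by
        gcongr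
    _ ≤ ((2097152 : ℕ) : ℝ) := by norm_num

theorem rowW {k : ℕ} (hk : k ≤ 14) {L4 : List ℕ} (hL4 : L4.length = 273)
    (h : force1 (sumL gE) (fun gs => force1 (packL B640 gE) fun gp =>
      passW B640 gs gp k 272 (eA ++ [e1]) eB L4) = true) :
    RowW 272 4 k 4194312 L4 := by
  rw [force1_eq, force1_eq] at h
  exact passW_spec (by norm_num) hk gE_ok eok' len_eA len_eB gE_len hL4 h

end H81.SG
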