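import Pool.Agent.H81.SG.TabN
import Pool.Agent.H81.SG6.R0
import Pool.Agent.H81.SG6.R1
import Pool.Agent.H81.SG6.R2
import Pool.Agent.H81.SG6.R3
import Pool.Agent.H81.SG6.R4
import Pool.Agent.H81.SG6.R5
import Pool.Agent.H81.SG6.R6
import Pool.Agent.H81.SG6.R7
import Pool.Agent.H81.SG6.R8
import Pool.Agent.H81.SG6.R9
import Pool.Agent.H81.SG6.R10
import Pool.Agent.H81.SG6.R11
import Pool.Agent.H81.SG6.R12
import Pool.Agent.H81.SG6.R13
import Pool.Agent.H81.SG6.R14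

/-!
# The certified table for `n = 4` with `W = 272`
-/

namespace H81.SG

open H46.SB Pool.Agent.H25.SD

/-- rows `k = 0, …, 14` for `n = 4`, `i = 0, …, 272` -/
def LL4w : List (List ℕ) := [w4_0, w4_1, w4_2, w4_3, w4_4, w4_5, w4_6, w4_7,
  w4_8, w4_9, w4_10, w4_11, w4_12, w4_13, w4_14]

theorem tab_ofW {n Er : ℕ} {LL : List (List ℕ)} (hlen : LL.length = 15)
    (h : ∀ r < 15, RowW 272 n r Er (LL.getD r [])) (hm : leAll2 LmaxN LL = true) :
    Tab (Fk n) (2 ^ 72 / hh ^ n) ((21 / 20 : ℝ) ^ (-130 : ℤ)) Er LmaxN LL 272 := by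
  have hh0 : 0 < hh := by have := hh_bounds.1; linarith
  have e : ∀ i : ℕ, (21 / 20 : ℝ) ^ (-130 : ℤ) * (21 / 20) ^ i = p ^ ((i : ℤ) - 130) := by
    intro i
    unfold p
    have e2 : (i : ℤ) - 130 = -130 + (i : ℤ) := by ring
    rw [e2, zpow_add₀ (by norm_num), zpow_natCast]
  refine ⟨by positivity, by positivity, ?_, ?_, ?_, fun r _ i _ => leAll2_spec hm r i⟩
  · intro r hr
    exact (h r (by omega)).1
  · intro r hr i hi
    rw [e]
    exact ((h r (by omega)).2 i hi).1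
  · intro r hr i hi
    rw [e]
    exact ((h r (by omega)).2 i hi).2

theorem tab4w : Tab (Fk 4) (2 ^ 72 / hh ^ 4) ((21 / 20 : ℝ) ^ (-130 : ℤ)) 4194312 LmaxN LL4w 272 := by
  refine tab_ofW rfl ?_ (by decide +kernel)
  intro r hr
  interval_cases r
  · exact wrow_0
  · exact wrow_1
  · exact wrow_2
  · exact wrow_3
  · exact wrow_4
  · exact wrow_5
  · exact wrow_6
  · exact wrow_7
  · exact wrow_8
  · exact wrow_9
  · exact wrow_10
  · exact wrow_11
  · exact wrow_12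
  · exact wrow_13
  · exact wrow_14

end H81.SG
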